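import Pool.Agent.TH899.UG.FSq

/-!
# Four squares and patterns of primes, for every large integer

Q1 asks for a representation of `n` as a sum of four squares for which `p = x + 2 y + 5 z` and
`p - 2`, `p + 4`, `p + 10` are primes. For every large `n` (not divisible by `4`) and for any `T`
windows of length `H` (for instance all of them equal to `[0, H)`) there are `k + 1` windows such
that a positive proportion of all patterns of `k + 1` numbers, one in each of these windows, have
many translates which consist of primes, and each of these primes is a value of `x + 2 y + 5 z` at a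
representation of `n`. Here `k + 1` exceeds a quarter of `T`; twelve windows give four primes.
-/

set_option autoImplicit false

open Finset Filter

namespace Pool.Agent.Results.MP_40574a_nt.PatternsForEveryInteger

/-- `p` is the value of `x + 2 y + 5 z` at a representation of `n` as a sum of four squares of
natural numbers -/
def Val (n p : ℕ) : Prop :=
  ∃ x y z w : ℕ, n = x ^ 2 + y ^ 2 + z ^ 2 + w ^ 2 ∧ p = x + 2 * y + 5 * z

open Classical in
/-- The `q < n` for which all the numbers `q + c g + h g`, `g ∈ S`, are primes and values of the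
linear form at representations of `n`. -/
noncomputable def places {T : ℕ} (n : ℕ) (c : Fin T → ℤ) (h : Fin T → ℕ) (S : Finset (Fin T)) :
    Finset ℕ :=
  (range n).filter (fun q => ∀ g ∈ S, ∃ p : ℕ, (p : ℤ) = q + c g + h g ∧ p.Prime ∧ Val n p)

open Classical in
/-- The vectors `h`, `0 ≤ h g < H` for `g ∈ S` and `h g = 0` otherwise, for which the numbers
`c g + h g`, `g ∈ S`, are distinct and at least `n ^ (1 / 2 - η)` places `q` exist. -/
noncomputable def good {T : ℕ} (n H : ℕ) (η : ℝ) (c : Fin T → ℤ) (S : Finset (Fin T)) :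
    Finset (Fin T → ℕ) :=
  (Fintype.piFinset (fun g => if g ∈ S then range H else {0})).filter (fun h =>
    (∀ g ∈ S, ∀ g' ∈ S, g ≠ g' → c g + h g ≠ c g' + h g') ∧
      (n : ℝ) ^ (1 / 2 - η) ≤ ((places n c h S).card : ℝ))

/-- There is an absolute constant `0 < κ < 1` such that for all `T ≥ 1` and `k` with
`(4 - κ) k < T` and all `0 < δ < (φ(P) / P) ^ (k + 1) / binomial(T, k + 1)`, `P` the product of the
primes up to `T`, there is `C` such that for every `η > 0` and all large `n` not divisible by `4`,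
for all `C ≤ H ≤ √n / C` and all `T` centres `c g` with `|c g| ≤ √n / 200`, some `k + 1` of the
centres have at least `δ H ^ (k + 1)` vectors `h` as above. -/
theorem result : ∃ κ : ℝ, 0 < κ ∧ κ < 1 ∧ ∀ T k : ℕ, 1 ≤ T → (4 - κ) * k < T →
    ∀ δ : ℝ, 0 < δ → δ * (T.choose (k + 1) : ℝ) * (primorial T : ℝ) ^ (k + 1) <
      ((primorial T).totient : ℝ) ^ (k + 1) →
    ∃ C : ℕ, ∀ η : ℝ, 0 < η → ∃ n₀ : ℕ, ∀ n : ℕ, n₀ ≤ n → ¬ 4 ∣ n →
      ∀ H : ℕ, C ≤ H → (C * H) ^ 2 ≤ n → ∀ c : Fin T → ℤ, (∀ g, (200 * c g) ^ 2 ≤ n) →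
        ∃ S : Finset (Fin T), S.card = k + 1 ∧
          δ * (H : ℝ) ^ (k + 1) ≤ ((good n H η c S).card : ℝ) := by
  obtain ⟨κ, h1, h2, h3⟩ := Pool.Agent.TH899.UG.FSq.main
  refine ⟨κ, h1, h2, fun T k hT hTk δ hδ hδ1 => ?_⟩
  obtain ⟨C, hC⟩ := h3 T k hT hTk δ hδ hδ1
  refine ⟨C, fun η hη => ?_⟩
  obtain ⟨n₀, hn₀⟩ := eventually_atTop.1 (hC η hη)
  exact ⟨n₀, fun n hn h4 H hH hHn c hc => hn₀ n hn h4 H hH hHn c hc⟩

end Pool.Agent.Results.MP_40574a_nt.PatternsForEveryInteger
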